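import Pool.Agent.Q8.WP.Weights

namespace Q8.WP

open scoped ENNReal

lemma chain_snoc (x : List Letter) (hx : x.IsChain R) (l : Letter) :
    (x ++ [l]).IsChain R ↔ ∀ m ∈ x.getLast?, R m l := by
  rw [List.isChain_append]
  constructor
  · rintro ⟨-, -, h⟩ m hm
    exact h m hm l (by simp)
  · intro h
    refine ⟨hx, List.isChain_singleton _, ?_⟩
    intro m hm k hk
    have : k = l := by simpa using hk.symm
    rw [this]
    exact h m hm

open Classical in
lemma S_ge (x : V) : (27 : ℝ) ≤ ∑ l : Letter, if (x.1 ++ [l]).IsChain R then rr l else 0 := by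
  have hchain := fun l => chain_snoc x.1 x.2 l
  simp_rw [hchain]
  have key : ∀ m : Letter, (27 : ℝ) ≤ ∑ l : Letter, if R m l then rr l else 0 := by
    intro m
    rw [Fintype.sum_sum_type]
    rcases m with a | b
    · have h1 : ∀ c : Fin 2, (if R (Sum.inl a) (Sum.inl c) then rr (Sum.inl c) else 0) = (25:ℝ) := by
        intro c
        rw [if_pos (show R (Sum.inl a) (Sum.inl c) from trivial)]
        rfl
      have h2 : ∀ c : Fin 50, (0:ℝ) ≤ (if R (Sum.inl a) (Sum.inr c) then rr (Sum.inr c) else 0) := by
        intro c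
        split_ifs
        · exact (rr_pos _).le
        · exact le_rfl
      simp_rw [h1]
      have h3 : (0:ℝ) ≤ ∑ c : Fin 50, (if R (Sum.inl a) (Sum.inr c) then rr (Sum.inr c) else 0) :=
        Finset.sum_nonneg fun c _ => h2 c
      simp only [Finset.sum_const, Finset.card_univ, Fintype.card_fin]
      norm_num

      linarith
    · have h1 : ∀ c : Fin 50, (if R (Sum.inr b) (Sum.inr c) then rr (Sum.inr c) else 0) = (1:ℝ)/25 := by
        intro c
        rw [if_pos (show R (Sum.inr b) (Sum.inr c) from trivial)]
        rfl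
      simp_rw [h1]
      have h2 : ∀ c : Fin 2, (if R (Sum.inr b) (Sum.inl c) then rr (Sum.inl c) else 0)
          = if c = 0 then (0:ℝ) else 25 := by
        intro c
        have : R (Sum.inr b) (Sum.inl c) ↔ c ≠ 0 := Iff.rfl
        by_cases hc : c = 0
        · rw [if_neg (by rw [this]; exact fun h => h hc), if_pos hc]
        · rw [if_pos (this.mpr hc), if_neg hc]
          rfl
      simp_rw [h2]
      rw [Fin.sum_univ_two]
      simp only [Finset.sum_const, Finset.card_univ, Fintype.card_fin]
      norm_num
  cases hl : x.1.getLast? with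
  | none =>
    simp only [Option.mem_def, reduceCtorEq, false_imp_iff, implies_true, if_true]
    rw [Fintype.sum_sum_type]
    simp [rr]
    norm_num
  | some m =>
    have : ∀ l, (∀ m' ∈ (some m : Option Letter), R m' l) ↔ R m l := by
      intro l
      simp
    simp_rw [this]
    exact key m

open Classical in
/-- the word `x ++ [l]` as a vertex -/
noncomputable def ext (p : V × Letter) : V :=
  if h : (p.1.1 ++ [p.2]).IsChain R then ⟨p.1.1 ++ [p.2], h⟩ else o

lemma ext_val {x : V} {l : Letter} (h : (x.1 ++ [l]).IsChain R) : ext (x, l) = ⟨x.1 ++ [l], h⟩ := by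
  unfold ext
  exact dif_pos h

open Classical in
/-- Key inequality. -/
lemma key_ineq (F B : Finset V) (hB : ∀ y, y ∈ B ↔ y ∈ extBoundary T F) :
    26 * ∑ x ∈ F, WL x.1 ≤ ∑ y ∈ B, WL y.1 := by
  set P : Finset (V × Letter) :=
    (F ×ˢ (Finset.univ : Finset Letter)).filter (fun p => (p.1.1 ++ [p.2]).IsChain R) with hP
  have hval : ∀ p ∈ P, (ext p).1 = p.1.1 ++ [p.2] := by
    intro p hp
    have := (Finset.mem_filter.mp hp).2
    unfold ext
    rw [dif_pos this]
  have hinj : Set.InjOn ext (P : Set (V × Letter)) := by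
    intro p hp q hq h
    have h1 := congrArg Subtype.val h
    rw [hval p hp, hval q hq] at h1
    obtain ⟨h2, h3⟩ := List.append_inj' h1 rfl
    exact Prod.ext (Subtype.ext h2) (by simpa using h3)
  have hN : ∑ y ∈ P.image ext, WL y.1 = ∑ p ∈ P, WL (ext p).1 := Finset.sum_image hinj
  have h1 : ∑ p ∈ P, WL (ext p).1 = ∑ x ∈ F, WL x.1 * ∑ l : Letter,
      (if (x.1 ++ [l]).IsChain R then rr l else 0) := by
    have : ∀ p ∈ P, WL (ext p).1 = WL p.1.1 * rr p.2 := by
      intro p hp
      rw [hval p hp, WL_append]
      simp [WL]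
    rw [Finset.sum_congr rfl this, hP, Finset.sum_filter, Finset.sum_product]
    refine Finset.sum_congr rfl fun x _ => ?_
    rw [Finset.mul_sum]
    refine Finset.sum_congr rfl fun l _ => ?_
    split_ifs <;> simp
  have h2 : 27 * ∑ x ∈ F, WL x.1 ≤ ∑ y ∈ P.image ext, WL y.1 := by
    rw [hN, h1, Finset.mul_sum]
    refine Finset.sum_le_sum fun x _ => ?_
    have := mul_le_mul_of_nonneg_left (S_ge x) (WL_pos x.1).le
    linarith
  have h3 : ∑ y ∈ P.image ext, WL y.1 ≤ ∑ y ∈ B, WL y.1 + ∑ y ∈ F, WL y.1 := by
    have hsub : P.image ext ⊆ B ∪ F := by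
      intro y hy
      obtain ⟨p, hp, rfl⟩ := Finset.mem_image.mp hy
      rw [Finset.mem_union]
      by_cases hyF : ext p ∈ F
      · exact Or.inr hyF
      · left
        rw [hB]
        refine ⟨hyF, p.1, ?_, ?_⟩
        · have := (Finset.mem_filter.mp hp).1
          exact (Finset.mem_product.mp this).1
        · rw [adj_iff]
          exact Or.inl ⟨p.2, hval p hp⟩
    calc ∑ y ∈ P.image ext, WL y.1 ≤ ∑ y ∈ B ∪ F, WL y.1 :=
          Finset.sum_le_sum_of_subset_of_nonneg hsub (fun y _ _ => (WL_pos y.1).le)
      _ ≤ ∑ y ∈ B, WL y.1 + ∑ y ∈ F, WL y.1 := by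
          have := Finset.sum_union_inter (s₁ := B) (s₂ := F) (f := fun y : V => WL y.1)
          have h4 : 0 ≤ ∑ y ∈ B ∩ F, WL y.1 := Finset.sum_nonneg fun y _ => (WL_pos y.1).le
          linarith
  linarith

/-- neighbours are finite in number -/
lemma finite_nbr (x : V) : (T.neighborSet x).Finite := by
  classical
  have hsub : T.neighborSet x ⊆ (Set.range (fun l : Letter => ext (x, l))) ∪
      {y : V | y.1 = x.1.dropLast} := by
    intro y hy
    rw [SimpleGraph.mem_neighborSet, adj_iff] at hy
    rcases hy with ⟨l, h⟩ | ⟨l, h⟩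
    · left
      refine ⟨l, ?_⟩
      have h2 : (x.1 ++ [l]).IsChain R := by rw [← h]; exact y.2
      exact (ext_val h2).trans (Subtype.ext h.symm)
    · right
      show y.1 = _
      rw [h, List.dropLast_concat]
  refine Set.Finite.subset ((Set.finite_range _).union ?_) hsub
  apply Set.Subsingleton.finite
  intro a ha b hb
  exact Subtype.ext (ha.trans hb.symm)

lemma finite_boundary (F : Finset V) : (extBoundary T (F : Set V)).Finite := by
  refine Set.Finite.subset (Set.Finite.biUnion F.finite_toSet (fun x _ => finite_nbr x)) ?_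
  rintro y ⟨-, x, hx, hxy⟩
  exact Set.mem_biUnion hx hxy

lemma weightSet_coe (F : Finset V) :
    weightSet T Gam o (F : Set V) = ENNReal.ofReal (∑ x ∈ F, WL x.1) := by
  unfold weightSet
  rw [Finset.tsum_subtype' F (fun x => ENNReal.ofReal (weight T Gam o x)),
    ENNReal.ofReal_sum_of_nonneg (fun x _ => (WL_pos x.1).le)]
  simp_rw [weight_eq]

theorem cheeger_ge : 26 ≤ weightedCheeger T Gam o := by
  classical
  unfold weightedCheeger
  apply le_csInf
  · exact ⟨_, {o}, Finset.singleton_nonempty _, rfl⟩
  · rintro r ⟨F, hF, rfl⟩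
    set B := (finite_boundary F).toFinset with hB
    have hBc : (extBoundary T (F : Set V)) = (B : Set V) := by rw [hB]; simp
    have h := key_ineq F B (by intro y; rw [hB]; simp)
    rw [hBc, weightSet_coe, weightSet_coe, ENNReal.toReal_ofReal, ENNReal.toReal_ofReal]
    · rw [le_div_iff₀]
      · exact h
      · exact Finset.sum_pos (fun x _ => WL_pos x.1) hF
    · exact Finset.sum_nonneg fun x _ => (WL_pos x.1).le
    · exact Finset.sum_nonneg fun x _ => (WL_pos x.1).le

lemma connected_T : T.Connected := by
  have key : ∀ (x : List Letter) (hx : x.IsChain R), T.Reachable o ⟨x, hx⟩ := by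
    intro x
    induction x using List.reverseRecOn with
    | nil => intro hx; exact SimpleGraph.Reachable.refl _
    | append_singleton x l ih =>
      intro hx
      refine (ih (chain_of_append hx)).trans (SimpleGraph.Adj.reachable ?_)
      rw [adj_iff]
      exact Or.inl ⟨l, rfl⟩
  have : Nonempty V := ⟨o⟩
  refine SimpleGraph.Connected.mk ?_
  intro x y
  exact (key x.1 x.2).symm.trans (key y.1 y.2)

lemma chain_replicate (n : ℕ) : (List.replicate n (Sum.inl 1 : Letter)).IsChain R := by
  induction n with
  | zero => simp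
  | succ n ih =>
    rw [List.replicate_succ']
    rw [chain_snoc _ ih]
    intro m hm
    have : m = Sum.inl 1 := by
      rcases n with _ | n
      · simp at hm
      · rw [List.replicate_succ', Option.mem_def, List.getLast?_concat] at hm
        exact (Option.some.inj hm).symm
    rw [this]
    trivial

/-- an infinite ray of heavier and heavier vertices -/
def ray (n : ℕ) : V := ⟨List.replicate n (Sum.inl 1), chain_replicate n⟩

lemma ray_inj : Function.Injective ray := by
  intro m n h
  have := congrArg (fun x : V => x.1.length) h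
  simpa [ray] using this

lemma infinite_V : Infinite V := Infinite.of_injective ray ray_inj

lemma WL_ray (n : ℕ) : 1 ≤ WL (ray n).1 := by
  unfold WL ray
  simp only [List.map_replicate, List.prod_replicate]
  apply one_le_pow₀
  simp [rr]

end Q8.WP
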