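import Mathlib

namespace Q8.WP

open MeasureTheory ProbabilityTheory unitInterval
open scoped ENNReal

section general
variable {V : Type*} (G : SimpleGraph V)

/-- `Γ` is closed in the automorphism group for the topology of pointwise convergence. -/
def IsClosedSubgroup (Γ : Subgroup (G ≃g G)) : Prop :=
  ∀ g : G ≃g G, (∀ F : Finset V, ∃ γ ∈ Γ, ∀ x ∈ F, γ x = g x) → g ∈ Γ

/-- `Γ` acts transitively. -/
def IsTransitive (Γ : Subgroup (G ≃g G)) : Prop := ∀ x y : V, ∃ γ ∈ Γ, γ x = y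

/-- The orbit `Γ_x y`. -/
def stabOrbit (Γ : Subgroup (G ≃g G)) (x y : V) : Set V := {z | ∃ γ ∈ Γ, γ x = x ∧ γ y = z}

/-- The relative weight `w^o(x) = |Γ_x o| / |Γ_o x|`. -/
noncomputable def weight (Γ : Subgroup (G ≃g G)) (o x : V) : ℝ :=
  (stabOrbit G Γ x o).ncard / (stabOrbit G Γ o x).ncard

/-- The weight of a set. -/
noncomputable def weightSet (Γ : Subgroup (G ≃g G)) (o : V) (K : Set V) : ℝ≥0∞ :=
  ∑' x : K, ENNReal.ofReal (weight G Γ o x)

/-- The open subgraph of a configuration. -/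
def openGraph (ω : G.edgeSet → Bool) : SimpleGraph V where
  Adj x y := ∃ h : G.Adj x y, ω ⟨s(x, y), h⟩ = true
  symm := ⟨by
    rintro x y ⟨h, hω⟩
    refine ⟨h.symm, ?_⟩
    have : (⟨s(y, x), h.symm⟩ : G.edgeSet) = ⟨s(x, y), h⟩ := Subtype.ext Sym2.eq_swap
    rw [this]
    exact hω⟩
  loopless := ⟨by
    rintro x ⟨h, -⟩
    exact G.loopless.irrefl x h⟩

/-- The cluster of a vertex. -/
def cluster (ω : G.edgeSet → Bool) (x : V) : Set V := {y | (openGraph G ω).Reachable x y}

/-- Bernoulli(`p`) bond percolation. -/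
noncomputable def perc (p : I) : Measure (G.edgeSet → Bool) :=
  Measure.infinitePi (fun _ : G.edgeSet => bernoulliMeasure true false p)

/-- The heavy-cluster threshold. -/
noncomputable def heavyThreshold (Γ : Subgroup (G ≃g G)) (o : V) : ℝ :=
  sInf {p : ℝ | ∃ hp : p ∈ I, 0 < perc G ⟨p, hp⟩ {ω | ∃ x, weightSet G Γ o (cluster G ω x) = ⊤}}

/-- The external vertex boundary. -/
def extBoundary (F : Set V) : Set V := {y | y ∉ F ∧ ∃ x ∈ F, G.Adj x y}

/-- The weighted vertex Cheeger constant. -/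
noncomputable def weightedCheeger (Γ : Subgroup (G ≃g G)) (o : V) : ℝ :=
  sInf {r : ℝ | ∃ F : Finset V, F.Nonempty ∧
    r = (weightSet G Γ o (extBoundary G F)).toReal / (weightSet G Γ o F).toReal}

end general

/-! ## Weights as indices -/

section index
variable {V : Type*} {G : SimpleGraph V} (Γ : Subgroup (G ≃g G))

/-- the stabiliser of `x` in `Γ`, as a subgroup of the automorphism group -/
def st (x : V) : Subgroup (G ≃g G) := Γ ⊓ MulAction.stabilizer (G ≃g G) x

lemma mem_st {x : V} {γ : G ≃g G} : γ ∈ st Γ x ↔ γ ∈ Γ ∧ γ x = x := by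
  unfold st
  rw [Subgroup.mem_inf, MulAction.mem_stabilizer_iff]
  rfl

lemma ncard_stabOrbit (x y : V) :
    (stabOrbit G Γ x y).ncard = (st Γ y).relIndex (st Γ x) := by
  have h1 : stabOrbit G Γ x y = MulAction.orbit (st Γ x) y := by
    ext z
    constructor
    · rintro ⟨γ, hγ, h1, h2⟩
      exact ⟨⟨γ, (mem_st Γ).mpr ⟨hγ, h1⟩⟩, h2⟩
    · rintro ⟨⟨γ, hγ⟩, h2⟩
      obtain ⟨h3, h4⟩ := (mem_st Γ).mp hγ
      exact ⟨γ, h3, h4, h2⟩
  rw [h1, ← MulAction.index_stabilizer]
  unfold Subgroup.relIndex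
  congr 1
  ext ⟨γ, hγ⟩
  rw [MulAction.mem_stabilizer_iff, Subgroup.mem_subgroupOf, mem_st]
  constructor
  · intro h
    exact ⟨((mem_st Γ).mp hγ).1, h⟩
  · intro h
    exact h.2

/-- commensurability of stabilisers -/
lemma weight_mul (o x y : V) (hox : (st Γ o).Commensurable (st Γ x))
    (hxy : (st Γ x).Commensurable (st Γ y)) :
    weight G Γ o y = weight G Γ o x *
      ((stabOrbit G Γ y x).ncard / (stabOrbit G Γ x y).ncard : ℝ) := by
  have hoy : (st Γ o).Commensurable (st Γ y) := hox.trans hxy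
  unfold weight
  simp only [ncard_stabOrbit]
  set O := st Γ o
  set X := st Γ x
  set Y := st Γ y
  -- the common intersection
  set N := O ⊓ (X ⊓ Y) with hN
  have key : ∀ A B : Subgroup (G ≃g G), N ≤ A → N ≤ B → A.Commensurable B →
      N.relIndex A ≠ 0 → N.relIndex B ≠ 0 →
      (A.relIndex B : ℝ) / (B.relIndex A) = (N.relIndex B : ℝ) / (N.relIndex A) := by
    intro A B hA hB hAB hNA hNB
    have e1 : N.relIndex (A ⊓ B) * (A ⊓ B).relIndex B = N.relIndex B :=
      Subgroup.relIndex_mul_relIndex _ _ _ (le_inf hA hB) inf_le_right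
    have e2 : N.relIndex (A ⊓ B) * (A ⊓ B).relIndex A = N.relIndex A :=
      Subgroup.relIndex_mul_relIndex _ _ _ (le_inf hA hB) inf_le_left
    rw [Subgroup.inf_relIndex_right] at e1
    rw [Subgroup.inf_relIndex_left] at e2
    rw [← e1, ← e2]
    have h1 : ((N.relIndex (A ⊓ B) : ℕ) : ℝ) ≠ 0 := by
      intro h
      apply hNA
      rw [← e2]
      have : N.relIndex (A ⊓ B) = 0 := by exact_mod_cast h
      rw [this, zero_mul]
    push_cast
    rw [mul_div_mul_left _ _ h1]
  have hNO : N ≤ O := inf_le_left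
  have hNX : N ≤ X := le_trans inf_le_right inf_le_left
  have hNY : N ≤ Y := le_trans inf_le_right inf_le_right
  have nO : N.relIndex O ≠ 0 := by
    rw [hN]
    refine Subgroup.relIndex_inf_ne_zero (by rw [Subgroup.relIndex_self]; exact one_ne_zero) ?_
    exact Subgroup.relIndex_inf_ne_zero hox.2 hoy.2
  have nX : N.relIndex X ≠ 0 := by
    rw [hN]
    refine Subgroup.relIndex_inf_ne_zero hox.1 ?_
    exact Subgroup.relIndex_inf_ne_zero (by rw [Subgroup.relIndex_self]; exact one_ne_zero) hxy.2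
  have nY : N.relIndex Y ≠ 0 := by
    rw [hN]
    refine Subgroup.relIndex_inf_ne_zero hoy.1 ?_
    exact Subgroup.relIndex_inf_ne_zero hxy.1 (by rw [Subgroup.relIndex_self]; exact one_ne_zero)
  rw [key O Y hNO hNY hoy nO nY, key O X hNO hNX hox nO nX, key X Y hNX hNY hxy nX nY]
  have hXr : ((N.relIndex X : ℕ) : ℝ) ≠ 0 := by exact_mod_cast nX
  field_simp

end index

end Q8.WP
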