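import Pool.Agent.Q8.WP.Cheeger

namespace Q8.WP

open MeasureTheory ProbabilityTheory unitInterval
open scoped ENNReal

/-- prefix of length `k` -/
def pre (y : V) (k : ℕ) : V := ⟨y.1.take k, by
  have h : y.1 = y.1.take k ++ y.1.drop k := (List.take_append_drop k y.1).symm
  exact chain_of_append (y := y.1.drop k) (h ▸ y.2)⟩

lemma pre_len (y : V) : pre y y.1.length = y := Subtype.ext (by simp [pre])

lemma pre_adj (y : V) {k : ℕ} (hk : k < y.1.length) : T.Adj (pre y k) (pre y (k + 1)) := by
  rw [adj_iff]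
  left
  refine ⟨y.1[k], ?_⟩
  show y.1.take (k + 1) = y.1.take k ++ [y.1[k]]
  simp

open Classical in
/-- the `k`-th edge on the way to `y` (junk value for large `k`) -/
noncomputable def ed (y : V) (k : ℕ) : T.edgeSet :=
  if h : k < y.1.length then ⟨s(pre y k, pre y (k + 1)), pre_adj y h⟩
  else ⟨s(pre (ray 1) 0, pre (ray 1) 1), pre_adj (ray 1) (by simp [ray])⟩

lemma ed_eq (y : V) {k : ℕ} (h : k < y.1.length) :
    ed y k = ⟨s(pre y k, pre y (k + 1)), pre_adj y h⟩ := by
  unfold ed
  exact dif_pos h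

lemma ed_inj (y : V) : Set.InjOn (ed y) (Set.Iio y.1.length) := by
  intro i hi j hj h
  rw [ed_eq y hi, ed_eq y hj] at h
  have h1 : s(pre y i, pre y (i + 1)) = s(pre y j, pre y (j + 1)) := congrArg Subtype.val h
  have hi' : i < y.1.length := hi
  have hj' : j < y.1.length := hj
  have len : ∀ k, k ≤ y.1.length → (pre y k).1.length = k := by
    intro k hk
    simp [pre, hk]
  rcases Sym2.eq_iff.mp h1 with ⟨h2, -⟩ | ⟨h2, h3⟩
  · have := congrArg (fun x : V => x.1.length) h2
    simp only [len i hi'.le, len j hj'.le] at this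
    exact this
  · have e1 := congrArg (fun x : V => x.1.length) h2
    have e2 := congrArg (fun x : V => x.1.length) h3
    simp only [len i hi'.le, len (j + 1) hj', len (i + 1) hi', len j hj'.le] at e1 e2
    omega

/-- `y` is reached from its prefix `z` by open edges -/
inductive OA (ω : T.edgeSet → Bool) (z : V) : V → Prop
  | refl : OA ω z z
  | step {y y' : V} (l : Letter) (h : OA ω z y) (e : y'.1 = y.1 ++ [l])
      (a : (openGraph T ω).Adj y y') : OA ω z y'

lemma OA_prefix {ω : T.edgeSet → Bool} {z y : V} (h : OA ω z y) : ∃ u, y.1 = z.1 ++ u := by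
  induction h with
  | refl => exact ⟨[], by simp⟩
  | step l h e a ih =>
    obtain ⟨u, hu⟩ := ih
    exact ⟨u ++ [l], by rw [e, hu, List.append_assoc]⟩

/-- the cylinder event -/
noncomputable def cyl (z y : V) : Set (T.edgeSet → Bool) :=
  {ω | ∀ k, z.1.length ≤ k → k < y.1.length → ω (ed y k) = true}

lemma OA_cyl {ω : T.edgeSet → Bool} {z y : V} (h : OA ω z y) : ω ∈ cyl z y := by
  induction h with
  | refl =>
    intro k h1 h2
    omega
  | @step y y' l h e a ih =>
    intro k h1 h2
    have hlen : y'.1.length = y.1.length + 1 := by rw [e]; simp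
    have hpre : ∀ j, j ≤ y.1.length → pre y' j = pre y j := by
      intro j hj
      apply Subtype.ext
      show y'.1.take j = y.1.take j
      rw [e, List.take_append_of_le_length hj]
    rcases Nat.lt_or_ge k y.1.length with hk | hk
    · have := ih k h1 hk
      rw [ed_eq y hk] at this
      rw [ed_eq y' h2]
      have e2 : (⟨s(pre y' k, pre y' (k + 1)), pre_adj y' h2⟩ : T.edgeSet)
          = ⟨s(pre y k, pre y (k + 1)), pre_adj y hk⟩ := by
        apply Subtype.ext
        show s(pre y' k, pre y' (k + 1)) = s(pre y k, pre y (k + 1))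
        rw [hpre k hk.le, hpre (k + 1) hk]
      rw [e2]
      exact this
    · have hk' : k = y.1.length := by omega
      subst hk'
      obtain ⟨ha, hω⟩ := a
      rw [ed_eq y' h2]
      have e2 : (⟨s(pre y' y.1.length, pre y' (y.1.length + 1)), pre_adj y' h2⟩ : T.edgeSet)
          = ⟨s(y, y'), ha⟩ := by
        apply Subtype.ext
        show s(pre y' y.1.length, pre y' (y.1.length + 1)) = s(y, y')
        rw [hpre _ le_rfl, pre_len, ← hlen, pre_len]
      rw [e2]
      exact hω

open Classical in
lemma cyl_eq (z y : V) : cyl z y =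
    Set.pi ((((Finset.Ico z.1.length y.1.length).image (ed y) : Finset T.edgeSet)) : Set T.edgeSet)
      (fun _ => ({true} : Set Bool)) := by
  ext ω
  simp only [cyl, Set.mem_ofPred_eq, Set.mem_pi, Finset.coe_image, Set.mem_image, Finset.coe_Ico,
    Set.mem_Ico, Set.mem_singleton_iff]
  constructor
  · rintro h e ⟨k, ⟨h1, h2⟩, rfl⟩
    exact h k h1 h2
  · intro h k h1 h2
    exact h _ ⟨k, ⟨h1, h2⟩, rfl⟩

lemma measurable_cyl (z y : V) : MeasurableSet (cyl z y) := by
  classical
  rw [cyl_eq]
  exact MeasurableSet.pi (Set.to_countable _) (fun _ _ => MeasurableSet.singleton _)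

lemma perc_cyl (p : I) (z y : V) :
    perc T p (cyl z y) = ((toNNReal p : NNReal) : ℝ≥0∞) ^ (y.1.length - z.1.length) := by
  classical
  rw [cyl_eq]
  unfold perc
  rw [Measure.infinitePi_pi _ (fun _ _ => MeasurableSet.singleton _)]
  have h1 : bernoulliMeasure true false p ({true} : Set Bool) = toNNReal p :=
    bernoulliMeasure_apply_of_mem_of_notMem p (MeasurableSet.singleton _) (by simp) (by simp)
  rw [Finset.prod_congr rfl (fun _ _ => h1), Finset.prod_const, Finset.card_image_of_injOn]
  · rw [Nat.card_Ico]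
  · intro i hi j hj h
    have hi' := (Finset.mem_coe.mp hi)
    have hj' := (Finset.mem_coe.mp hj)
    rw [Finset.mem_Ico] at hi' hj'
    exact ed_inj y hi'.2 hj'.2 h

open Classical in
/-- random term -/
noncomputable def HH (z : V) (u : List Letter) (ω : T.edgeSet → Bool) : ℝ≥0∞ :=
  if h : (z.1 ++ u).IsChain R then
    (cyl z ⟨z.1 ++ u, h⟩).indicator (fun _ => ENNReal.ofReal (√(WL (z.1 ++ u)))) ω
  else 0

lemma measurable_HH (z : V) (u : List Letter) : Measurable (HH z u) := by
  classical
  unfold HH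
  by_cases h : (z.1 ++ u).IsChain R
  · simp only [h, dite_true]
    exact measurable_const.indicator (measurable_cyl _ _)
  · simp only [h, dite_false]
    exact measurable_const

/-- `g l = √(rr l) p` -/
noncomputable def gg (p : I) (l : Letter) : ℝ≥0∞ := ENNReal.ofReal (√(rr l)) * (toNNReal p : NNReal)

lemma prod_gg (p : I) (u : List Letter) :
    (u.map (gg p)).prod = ENNReal.ofReal (√(WL u)) * ((toNNReal p : NNReal) : ℝ≥0∞) ^ u.length := by
  induction u with
  | nil => simp [WL]
  | cons l t ih =>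
    have h1 : WL (l :: t) = rr l * WL t := by simp [WL]
    rw [List.map_cons, List.prod_cons, ih, h1, Real.sqrt_mul (rr_pos l).le,
      ENNReal.ofReal_mul (Real.sqrt_nonneg _), List.length_cons, pow_succ]
    unfold gg
    ring

lemma lintegral_HH (p : I) (z : V) (u : List Letter) :
    ∫⁻ ω, HH z u ω ∂(perc T p) ≤ ENNReal.ofReal (√(WL z.1)) * (u.map (gg p)).prod := by
  classical
  by_cases h : (z.1 ++ u).IsChain R
  · have h1 : ∀ ω, HH z u ω =
        (cyl z ⟨z.1 ++ u, h⟩).indicator (fun _ => ENNReal.ofReal (√(WL (z.1 ++ u)))) ω := by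
      intro ω
      unfold HH
      rw [dif_pos h]
    simp_rw [h1]
    rw [lintegral_indicator_const (measurable_cyl _ _), perc_cyl, prod_gg, WL_append,
      Real.sqrt_mul (WL_pos z.1).le, ENNReal.ofReal_mul (Real.sqrt_nonneg _)]
    have h2 : (z.1 ++ u).length - z.1.length = u.length := by simp
    rw [h2, mul_assoc]
  · have h1 : ∀ ω, HH z u ω = 0 := by
      intro ω
      unfold HH
      rw [dif_neg h]
    simp_rw [h1]
    simp

lemma tsum_list (g : Letter → ℝ≥0∞) :
    ∑' u : List Letter, (u.map g).prod = ∑' n : ℕ, (∑ l, g l) ^ n := by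
  rw [← List.equivSigmaTuple.symm.tsum_eq, ENNReal.tsum_sigma']
  refine tsum_congr fun n => ?_
  rw [Fintype.sum_pow, tsum_fintype]
  refine Finset.sum_congr rfl fun v _ => ?_
  show ((List.ofFn v).map g).prod = _
  rw [List.map_ofFn, List.prod_ofFn]
  rfl

lemma sum_gg (p : I) : ∑ l, gg p l = ENNReal.ofReal (20 * p) := by
  have h5 : √(25:ℝ) = 5 := by
    rw [show (25:ℝ) = 5 ^ 2 by norm_num]
    exact Real.sqrt_sq (by norm_num)
  have h5' : √((1:ℝ)/25) = 1/5 := by
    rw [show (1:ℝ)/25 = (1/5) ^ 2 by norm_num]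
    exact Real.sqrt_sq (by norm_num)
  have hp : (((toNNReal p : NNReal)) : ℝ≥0∞) = ENNReal.ofReal (p : ℝ) := by
    rw [ENNReal.ofReal]
    congr 1
    ext
    rw [Real.coe_toNNReal _ p.2.1]
    rfl
  unfold gg
  rw [Fintype.sum_sum_type]
  have h1 : ∀ a : Fin 2, ENNReal.ofReal (√(rr (Sum.inl a))) = ENNReal.ofReal 5 := by
    intro a; simp only [rr, Sum.elim_inl, h5]
  have h2 : ∀ b : Fin 50, ENNReal.ofReal (√(rr (Sum.inr b))) = ENNReal.ofReal (1/5) := by
    intro a; simp only [rr, Sum.elim_inr, h5']
  simp_rw [h1, h2, hp]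
  simp only [Finset.sum_const, Finset.card_univ, Fintype.card_fin, nsmul_eq_mul]
  have hp0 : (0:ℝ) ≤ p := p.2.1
  rw [← ENNReal.ofReal_mul (by norm_num), ← ENNReal.ofReal_mul (by norm_num)]
  rw [show ((2:ℕ) : ℝ≥0∞) = ENNReal.ofReal 2 by simp, show ((50:ℕ) : ℝ≥0∞) = ENNReal.ofReal 50 by simp]
  rw [← ENNReal.ofReal_mul (by norm_num), ← ENNReal.ofReal_mul (by norm_num),
    ← ENNReal.ofReal_add (by positivity) (by positivity)]
  congr 1
  ring

lemma ae_finite (p : I) (hp : 20 * (p : ℝ) < 1) :
    ∀ᵐ ω ∂(perc T p), ∀ z : V, ∑' u, HH z u ω ≠ ⊤ := by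
  rw [ae_all_iff]
  intro z
  have h1 : ∫⁻ ω, ∑' u, HH z u ω ∂(perc T p) ≠ ⊤ := by
    rw [lintegral_tsum (fun u => (measurable_HH z u).aemeasurable)]
    have h2 : ∑' u, ∫⁻ ω, HH z u ω ∂(perc T p) ≤
        ∑' u : List Letter, ENNReal.ofReal (√(WL z.1)) * (u.map (gg p)).prod :=
      ENNReal.tsum_le_tsum fun u => lintegral_HH p z u
    refine ne_top_of_le_ne_top ?_ h2
    rw [ENNReal.tsum_mul_left, tsum_list, sum_gg, ENNReal.tsum_geometric]
    apply ENNReal.mul_ne_top ENNReal.ofReal_ne_top
    rw [ENNReal.inv_ne_top]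
    intro h3
    have h4 : (1:ℝ≥0∞) ≤ ENNReal.ofReal (20 * p) := tsub_eq_zero_iff_le.mp h3
    rw [← ENNReal.ofReal_one, ENNReal.ofReal_le_ofReal_iff] at h4
    · linarith
    · have : (0:ℝ) ≤ p := p.2.1
      positivity
  have h2 : Measurable (fun ω => ∑' u, HH z u ω) :=
    Measurable.tsum fun u => measurable_HH z u
  filter_upwards [ae_lt_top h2 h1] with ω hω
  exact hω.ne

/-- clusters are covered by the open paths from the prefixes -/
lemma cluster_cover (ω : T.edgeSet → Bool) (x y : V) (h : y ∈ cluster T ω x) :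
    ∃ k, k ≤ x.1.length ∧ OA ω (pre x k) y := by
  obtain ⟨w⟩ := h
  have key : ∀ (a b : V) (w : (openGraph T ω).Walk a b),
      (∃ k, k ≤ x.1.length ∧ OA ω (pre x k) a) → ∃ k, k ≤ x.1.length ∧ OA ω (pre x k) b := by
    intro a b w
    induction w with
    | nil => exact id
    | @cons a c b hac w ih =>
      rintro ⟨k, hk, hoa⟩
      apply ih
      obtain ⟨hadj, hω⟩ := id hac
      rcases (adj_iff a c).mp hadj with ⟨l, hl⟩ | ⟨l, hl⟩
      · exact ⟨k, hk, OA.step l hoa hl hac⟩
      · cases hoa with
        | refl =>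
          have hlen : (pre x k).1.length = k := by simp [pre, hk]
          have hk0 : 0 < k := by
            rw [hl] at hlen
            simp at hlen
            omega
          refine ⟨k - 1, by omega, ?_⟩
          have : pre x (k - 1) = c := by
            apply Subtype.ext
            show x.1.take (k - 1) = c.1
            have h1 : (pre x k).1 = x.1.take k := rfl
            rw [h1] at hl
            have h2 : c.1 = (x.1.take k).dropLast := by rw [hl, List.dropLast_concat]
            rw [h2, List.dropLast_eq_take, List.take_take]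
            congr 1
            rw [List.length_take]
            omega
          rw [this]
          exact OA.refl
        | @step y₁ _ l' h1 e1 a1 =>
          have h2 : y₁.1 ++ [l'] = c.1 ++ [l] := by rw [← e1, hl]
          have h3 : y₁ = c := Subtype.ext (List.append_inj' h2 rfl).1
          rw [← h3]
          exact ⟨k, hk, h1⟩
  refine key x y w ⟨x.1.length, le_rfl, ?_⟩
  rw [pre_len]
  exact OA.refl

lemma light (ω : T.edgeSet → Bool) (h : ∀ z : V, ∑' u, HH z u ω ≠ ⊤) (x : V) :
    weightSet T Gam o (cluster T ω x) ≠ ⊤ := by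
  classical
  have h1 : ∀ y : cluster T ω x, ∃ k : Fin (x.1.length + 1), ∃ u : List Letter,
      y.1.1 = (pre x k).1 ++ u ∧ OA ω (pre x k) y.1 := by
    rintro ⟨y, hy⟩
    obtain ⟨k, hk, hoa⟩ := cluster_cover ω x y hy
    obtain ⟨u, hu⟩ := OA_prefix hoa
    exact ⟨⟨k, by omega⟩, u, hu, hoa⟩
  choose K U hU hOA using h1
  set S : ℝ≥0∞ := ∑' y : cluster T ω x, ENNReal.ofReal (√(WL y.1.1)) with hS
  have hterm : ∀ y : cluster T ω x,
      ENNReal.ofReal (√(WL y.1.1)) ≤ HH (pre x (K y)) (U y) ω := by
    intro y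
    have hc : ((pre x (K y)).1 ++ U y).IsChain R := by rw [← hU y]; exact y.1.2
    unfold HH
    rw [dif_pos hc, Set.indicator_of_mem]
    · rw [← hU y]
    · have e : (⟨(pre x (K y)).1 ++ U y, hc⟩ : V) = y.1 := Subtype.ext (hU y).symm
      rw [e]
      exact OA_cyl (hOA y)
  have hinj : Function.Injective (fun y : cluster T ω x =>
      (⟨K y, U y⟩ : Σ _ : Fin (x.1.length + 1), List Letter)) := by
    intro y y' he
    have h2 : K y = K y' := congrArg Sigma.fst he
    have h3 : U y = U y' := by
      have := (Sigma.mk.inj_iff.mp he).2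
      exact eq_of_heq this
    apply Subtype.ext
    apply Subtype.ext
    rw [hU y, hU y', h2, h3]
  have hSfin : S ≠ ⊤ := by
    have h4 : S ≤ ∑' q : (Σ _ : Fin (x.1.length + 1), List Letter), HH (pre x q.1) q.2 ω := by
      calc S ≤ ∑' y : cluster T ω x, HH (pre x (K y)) (U y) ω := ENNReal.tsum_le_tsum hterm
        _ ≤ _ := ENNReal.tsum_comp_le_tsum_of_injective hinj
            (fun q : (Σ _ : Fin (x.1.length + 1), List Letter) => HH (pre x q.1) q.2 ω)
    refine ne_top_of_le_ne_top ?_ h4
    rw [ENNReal.tsum_sigma', tsum_fintype]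
    exact (ENNReal.sum_ne_top.mpr fun k _ => h (pre x k))
  have h5 : weightSet T Gam o (cluster T ω x) ≤ S * S := by
    unfold weightSet
    calc ∑' y : cluster T ω x, ENNReal.ofReal (weight T Gam o y)
        = ∑' y : cluster T ω x, ENNReal.ofReal (√(WL y.1.1)) * ENNReal.ofReal (√(WL y.1.1)) := by
          refine tsum_congr fun y => ?_
          rw [weight_eq, ← ENNReal.ofReal_mul (Real.sqrt_nonneg _),
            Real.mul_self_sqrt (WL_pos _).le]
      _ ≤ ∑' y : cluster T ω x, ENNReal.ofReal (√(WL y.1.1)) * S :=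
          ENNReal.tsum_le_tsum fun y => mul_le_mul_right (ENNReal.le_tsum y) _
      _ = S * S := ENNReal.tsum_mul_right
  exact ne_top_of_le_ne_top (ENNReal.mul_ne_top hSfin hSfin) h5

lemma heavy_univ : weightSet T Gam o (Set.univ : Set V) = ⊤ := by
  unfold weightSet
  rw [eq_top_iff]
  have hinj : Function.Injective (fun n : ℕ => (⟨ray n, trivial⟩ : (Set.univ : Set V))) := by
    intro m n h
    exact ray_inj (congrArg Subtype.val h)
  calc (⊤ : ℝ≥0∞) = ∑' _ : ℕ, (1 : ℝ≥0∞) := by
        rw [ENNReal.tsum_const_eq_top_of_ne_zero one_ne_zero]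
    _ ≤ ∑' n : ℕ, ENNReal.ofReal (weight T Gam o (ray n)) := by
        refine ENNReal.tsum_le_tsum fun n => ?_
        rw [weight_eq, ← ENNReal.ofReal_one]
        exact ENNReal.ofReal_le_ofReal (WL_ray n)
    _ ≤ _ := ENNReal.tsum_comp_le_tsum_of_injective hinj
          (fun y : (Set.univ : Set V) => ENNReal.ofReal (weight T Gam o y))

theorem threshold_ge : 1 / 20 ≤ heavyThreshold T Gam o := by
  unfold heavyThreshold
  apply le_csInf
  · refine ⟨1, unitInterval.one_mem, ?_⟩
    have h1 : perc T (1 : I) = Measure.dirac (fun _ => true) := by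
      unfold perc
      have : (fun _ : T.edgeSet => bernoulliMeasure true false (1 : I))
          = fun _ => Measure.dirac true := funext fun _ => bernoulliMeasure_one true false
      rw [this]
      exact Measure.infinitePi_dirac _
    show 0 < perc T (1 : I) _
    rw [h1, Measure.dirac_apply_of_mem]
    · exact one_pos
    · refine ⟨o, ?_⟩
      have h2 : cluster T (fun _ => true) o = Set.univ := by
        rw [Set.eq_univ_iff_forall]
        intro y
        have h3 : openGraph T (fun _ => true) = T := by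
          ext a b
          constructor
          · rintro ⟨h, -⟩; exact h
          · intro h; exact ⟨h, rfl⟩
        show (openGraph T (fun _ => true)).Reachable o y
        rw [h3]
        exact connected_T.preconnected o y
      rw [h2]
      exact heavy_univ
  · rintro p ⟨hp, hpos⟩
    by_contra hlt
    push Not at hlt
    have hae := ae_finite ⟨p, hp⟩ (by
      show 20 * p < 1
      linarith)
    have h0 : perc T ⟨p, hp⟩ {ω | ∃ x, weightSet T Gam o (cluster T ω x) = ⊤} = 0 := by
      rw [ae_iff] at hae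
      refine measure_mono_null ?_ hae
      rintro ω ⟨x, hx⟩
      intro hcon
      exact light ω hcon x hx
    rw [h0] at hpos
    exact lt_irrefl _ hpos

theorem main : 1 / (weightedCheeger T Gam o + 1) < heavyThreshold T Gam o := by
  have h1 := cheeger_ge
  have h2 := threshold_ge
  have h3 : 1 / (weightedCheeger T Gam o + 1) ≤ 1 / 27 :=
    one_div_le_one_div_of_le (by norm_num) (by linarith)
  have h4 : (1:ℝ) / 27 < 1 / 20 := by norm_num
  linarith

end Q8.WP
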