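import Pool.Agent.Q8.WP.Defs

namespace Q8.WP

/-- letters: `inl a` = go to a parent, `inr b` = go to a child -/
abbrev Letter := Fin 2 ⊕ Fin 50

/-- allowed consecutive letters -/
def R : Letter → Letter → Prop
  | .inl _, .inr b => b ≠ 0
  | .inr _, .inl a => a ≠ 0
  | _, _ => True

/-- vertices: reduced words -/
def V := {w : List Letter // w.IsChain R}

instance : Countable V := by unfold V; infer_instance

/-- the reference vertex -/
def o : V := ⟨[], List.isChain_nil⟩

/-- `Par x y`: `y` is a parent of `x`. -/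
def Par (x y : V) : Prop := (∃ a, y.1 = x.1 ++ [Sum.inl a]) ∨ (∃ b, x.1 = y.1 ++ [Sum.inr b])

lemma par_irrefl (x : V) : ¬ Par x x := by
  rintro (⟨a, h⟩ | ⟨b, h⟩)
  · have := congrArg List.length h
    simp at this
  · have := congrArg List.length h
    simp at this

/-- the tree -/
def T : SimpleGraph V where
  Adj x y := Par x y ∨ Par y x
  symm := ⟨fun _ _ h => h.symm⟩
  loopless := ⟨fun x h => h.elim (par_irrefl x) (par_irrefl x)⟩

lemma adj_iff (x y : V) : T.Adj x y ↔ (∃ l, y.1 = x.1 ++ [l]) ∨ (∃ l, x.1 = y.1 ++ [l]) := by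
  show (Par x y ∨ Par y x) ↔ _
  unfold Par
  constructor
  · rintro ((⟨a, h⟩ | ⟨b, h⟩) | (⟨a, h⟩ | ⟨b, h⟩))
    · exact Or.inl ⟨_, h⟩
    · exact Or.inr ⟨_, h⟩
    · exact Or.inr ⟨_, h⟩
    · exact Or.inl ⟨_, h⟩
  · rintro (⟨l, h⟩ | ⟨l, h⟩)
    · rcases l with a | b
      · exact Or.inl (Or.inl ⟨a, h⟩)
      · exact Or.inr (Or.inr ⟨b, h⟩)
    · rcases l with a | b
      · exact Or.inr (Or.inl ⟨a, h⟩)
      · exact Or.inl (Or.inr ⟨b, h⟩)

/-- orientation preserving automorphisms -/
def Gam : Subgroup (T ≃g T) where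
  carrier := {g | ∀ x y, Par x y ↔ Par (g x) (g y)}
  one_mem' := fun _ _ => Iff.rfl
  mul_mem' := by
    intro g h hg hh x y
    exact (hh x y).trans (hg (h x) (h y))
  inv_mem' := by
    intro g hg x y
    have := hg (g⁻¹ x) (g⁻¹ y)
    rw [RelIso.apply_inv_self, RelIso.apply_inv_self] at this
    exact this.symm

lemma mem_Gam {g : T ≃g T} : g ∈ Gam ↔ ∀ x y, Par x y ↔ Par (g x) (g y) := Iff.rfl

/-- an orientation preserving bijection is an automorphism in `Gam` -/
def mkAut (e : V ≃ V) (h1 : ∀ x y, Par x y → Par (e x) (e y))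
    (h2 : ∀ x y, Par x y → Par (e.symm x) (e.symm y)) : T ≃g T where
  toEquiv := e
  map_rel_iff' := by
    intro x y
    have key : ∀ x y, Par (e x) (e y) ↔ Par x y := by
      intro x y
      constructor
      · intro h
        have := h2 _ _ h
        simpa using this
      · exact h1 x y
    show (Par (e x) (e y) ∨ Par (e y) (e x)) ↔ (Par x y ∨ Par y x)
    rw [key, key]

lemma mkAut_mem (e : V ≃ V) (h1 : ∀ x y, Par x y → Par (e x) (e y))
    (h2 : ∀ x y, Par x y → Par (e.symm x) (e.symm y)) : mkAut e h1 h2 ∈ Gam := by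
  intro x y
  constructor
  · exact h1 x y
  · intro h
    have := h2 _ _ h
    have e1 : e.symm (mkAut e h1 h2 x) = x := e.symm_apply_apply x
    have e2 : e.symm (mkAut e h1 h2 y) = y := e.symm_apply_apply y
    rwa [e1, e2] at this

/-! ### The shift -/

/-- prepend `c`, or cancel `d` -/
def shL (c d : Letter) (x : List Letter) : List Letter :=
  match x with
  | [] => [c]
  | l :: t => if l = d then t else c :: l :: t

lemma shL_chain (c d : Letter) (hcd : ∀ l, l ≠ d → R c l) (x : List Letter) (hx : x.IsChain R) :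
    (shL c d x).IsChain R := by
  cases x with
  | nil => simp [shL]
  | cons l t =>
    unfold shL
    simp only
    split_ifs with h
    · exact hx.tail
    · exact List.isChain_cons_cons.mpr ⟨hcd l h, hx⟩

lemma shL_shL (c d : Letter) (hcd : ¬ R d c) (hne : c ≠ d) (x : List Letter) (hx : x.IsChain R) :
    shL d c (shL c d x) = x := by
  cases x with
  | nil => simp [shL]
  | cons l t =>
    unfold shL
    simp only
    split_ifs with h
    · subst h
      cases t with
      | nil => simp
      | cons m t =>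
        simp only
        have h2 := (List.isChain_cons_cons.mp hx).1
        have h3 : m ≠ c := by
          rintro rfl
          exact hcd h2
        rw [if_neg h3]
    · simp

/-- up letter and down letter -/
abbrev U0 : Letter := Sum.inl 0
/-- down letter -/
abbrev D0 : Letter := Sum.inr 0

lemma RU : ∀ l, l ≠ D0 → R U0 l := by
  rintro (a | b) h
  · trivial
  · intro h2
    exact h (by rw [h2])

lemma RD : ∀ l, l ≠ U0 → R D0 l := by
  rintro (a | b) h
  · intro h2
    exact h (by rw [h2])
  · trivial

lemma nRD : ¬ R D0 U0 := by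
  intro h; exact h rfl

lemma nRU : ¬ R U0 D0 := by
  intro h; exact h rfl

/-- the shift `V → V` -/
def shE : V ≃ V where
  toFun x := ⟨shL U0 D0 x.1, shL_chain _ _ RU x.1 x.2⟩
  invFun x := ⟨shL D0 U0 x.1, shL_chain _ _ RD x.1 x.2⟩
  left_inv x := Subtype.ext (shL_shL U0 D0 nRD (by simp) x.1 x.2)
  right_inv x := Subtype.ext (shL_shL D0 U0 nRU (by simp) x.1 x.2)

lemma shL_append (c d : Letter) (x : List Letter) (hx : x ≠ []) (l : Letter) :
    shL c d (x ++ [l]) = shL c d x ++ [l] := by
  cases x with
  | nil => exact absurd rfl hx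
  | cons m t =>
    unfold shL
    simp only [List.cons_append]
    split_ifs
    · rfl
    · rfl

/-- the general fact on lists -/
lemma shL_par (up : Bool) (x y : List Letter)
    (h : (∃ a, y = x ++ [Sum.inl a]) ∨ (∃ b, x = y ++ [Sum.inr b])) :
    (∃ a, shL (if up then U0 else D0) (if up then D0 else U0) y
        = shL (if up then U0 else D0) (if up then D0 else U0) x ++ [Sum.inl a]) ∨
      (∃ b, shL (if up then U0 else D0) (if up then D0 else U0) x
        = shL (if up then U0 else D0) (if up then D0 else U0) y ++ [Sum.inr b]) := by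
  set c := (if up then U0 else D0) with hc
  set d := (if up then D0 else U0) with hd
  rcases h with ⟨a, rfl⟩ | ⟨b, rfl⟩
  · by_cases hx : x = []
    · subst hx
      cases up
      · -- c = D0, d = U0
        simp only [hc, hd, shL, List.nil_append]
        by_cases ha : a = 0
        · subst ha
          right
          exact ⟨0, by simp⟩
        · left
          refine ⟨a, ?_⟩
          have : (Sum.inl a : Letter) ≠ U0 := by
            intro h; exact ha (Sum.inl.inj h)
          simp [this]
      · left
        exact ⟨a, by simp [hc, hd, shL]⟩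
    · left
      exact ⟨a, shL_append c d x hx _⟩
  · by_cases hy : y = []
    · subst hy
      cases up
      · right
        exact ⟨b, by simp [hc, hd, shL]⟩
      · simp only [hc, hd, shL, List.nil_append]
        by_cases hb : b = 0
        · subst hb
          left
          exact ⟨0, by simp⟩
        · right
          refine ⟨b, ?_⟩
          have : (Sum.inr b : Letter) ≠ D0 := by
            intro h; exact hb (Sum.inr.inj h)
          simp [this]
    · right
      exact ⟨b, shL_append c d y hy _⟩

/-- the shift automorphism -/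
def shA : T ≃g T := mkAut shE (fun x y h => shL_par true x.1 y.1 h)
  (fun x y h => shL_par false x.1 y.1 h)

lemma shA_mem : shA ∈ Gam := mkAut_mem _ _ _

/-! ### Permutations at the root -/

/-- permute the first letter -/
def rtL (p : Equiv.Perm (Fin 2)) (q : Equiv.Perm (Fin 50)) (x : List Letter) : List Letter :=
  match x with
  | [] => []
  | l :: t => (Sum.map p q l) :: t

lemma R_map (p : Equiv.Perm (Fin 2)) (q : Equiv.Perm (Fin 50)) (l m : Letter) (h : R l m) :
    R (Sum.map p q l) m := by
  rcases l with a | b <;> rcases m with c | d <;> exact h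

lemma rtL_chain (p q) (x : List Letter) (hx : x.IsChain R) : (rtL p q x).IsChain R := by
  cases x with
  | nil => exact hx
  | cons l t =>
    cases t with
    | nil => simp [rtL]
    | cons m t =>
      have h := List.isChain_cons_cons.mp hx
      exact List.isChain_cons_cons.mpr ⟨R_map p q l m h.1, h.2⟩

lemma rtL_inv (p q) (x : List Letter) : rtL p.symm q.symm (rtL p q x) = x := by
  cases x with
  | nil => rfl
  | cons l t =>
    rcases l with a | b <;> simp [rtL]

/-- root permutation on `V` -/
def rtE (p : Equiv.Perm (Fin 2)) (q : Equiv.Perm (Fin 50)) : V ≃ V where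
  toFun x := ⟨rtL p q x.1, rtL_chain p q x.1 x.2⟩
  invFun x := ⟨rtL p.symm q.symm x.1, rtL_chain _ _ x.1 x.2⟩
  left_inv x := Subtype.ext (rtL_inv p q x.1)
  right_inv x := Subtype.ext (rtL_inv p.symm q.symm x.1)

lemma rtL_par (p : Equiv.Perm (Fin 2)) (q : Equiv.Perm (Fin 50)) (x y : List Letter)
    (h : (∃ a, y = x ++ [Sum.inl a]) ∨ (∃ b, x = y ++ [Sum.inr b])) :
    (∃ a, rtL p q y = rtL p q x ++ [Sum.inl a]) ∨ (∃ b, rtL p q x = rtL p q y ++ [Sum.inr b]) := by
  rcases h with ⟨a, rfl⟩ | ⟨b, rfl⟩
  · left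
    cases x with
    | nil => exact ⟨p a, by simp [rtL]⟩
    | cons l t => exact ⟨a, by simp [rtL]⟩
  · right
    cases y with
    | nil => exact ⟨q b, by simp [rtL]⟩
    | cons l t => exact ⟨b, by simp [rtL]⟩

/-- the root permutation automorphism -/
def rtA (p : Equiv.Perm (Fin 2)) (q : Equiv.Perm (Fin 50)) : T ≃g T :=
  mkAut (rtE p q) (fun x y h => rtL_par p q x.1 y.1 h)
    (fun x y h => rtL_par p.symm q.symm x.1 y.1 h)

lemma rtA_mem (p q) : rtA p q ∈ Gam := mkAut_mem _ _ _

lemma exists_to_o : ∀ (n : ℕ) (x : V), x.1.length = n → ∃ γ ∈ Gam, γ x = o := by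
  intro n
  induction n with
  | zero =>
    intro x hx
    refine ⟨1, Gam.one_mem, ?_⟩
    show x = o
    exact Subtype.ext (List.length_eq_zero_iff.mp hx)
  | succ n ih =>
    rintro ⟨x, hxc⟩ hx
    cases x with
    | nil => simp at hx
    | cons l t =>
      simp only [List.length_cons, Nat.add_right_cancel_iff] at hx
      rcases l with a | b
      · -- first letter up: move to `inl 0`, then cancel by the inverse shift
        set x1 : V := rtA (Equiv.swap a 0) 1 ⟨Sum.inl a :: t, hxc⟩ with hx1
        have h1 : x1.1 = U0 :: t := by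
          show rtL (Equiv.swap a 0) 1 (Sum.inl a :: t) = _
          simp [rtL]
        set x2 : V := shA⁻¹ x1 with hx2
        have h2 : x2.1 = t := by
          show shL D0 U0 x1.1 = t
          rw [h1]
          simp [shL]
        obtain ⟨γ, hγ, h3⟩ := ih x2 (by rw [h2]; exact hx)
        refine ⟨γ * shA⁻¹ * rtA (Equiv.swap a 0) 1,
          Gam.mul_mem (Gam.mul_mem hγ (Gam.inv_mem shA_mem)) (rtA_mem _ _), ?_⟩
        exact h3
      · set x1 : V := rtA 1 (Equiv.swap b 0) ⟨Sum.inr b :: t, hxc⟩ with hx1
        have h1 : x1.1 = D0 :: t := by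
          show rtL 1 (Equiv.swap b 0) (Sum.inr b :: t) = _
          simp [rtL]
        set x2 : V := shA x1 with hx2
        have h2 : x2.1 = t := by
          show shL U0 D0 x1.1 = t
          rw [h1]
          simp [shL]
        obtain ⟨γ, hγ, h3⟩ := ih x2 (by rw [h2]; exact hx)
        refine ⟨γ * shA * rtA 1 (Equiv.swap b 0),
          Gam.mul_mem (Gam.mul_mem hγ shA_mem) (rtA_mem _ _), ?_⟩
        exact h3

lemma transitive_Gam : IsTransitive T Gam := by
  intro x y
  obtain ⟨γ, hγ, h1⟩ := exists_to_o _ x rfl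
  obtain ⟨δ, hδ, h2⟩ := exists_to_o _ y rfl
  refine ⟨δ⁻¹ * γ, Gam.mul_mem (Gam.inv_mem hδ) hγ, ?_⟩
  show δ⁻¹ (γ x) = y
  rw [h1, ← h2, RelIso.inv_apply_self]

lemma closed_Gam : IsClosedSubgroup T Gam := by
  intro g hg x y
  classical
  obtain ⟨γ, hγ, h⟩ := hg {x, y}
  rw [← h x (by simp), ← h y (by simp)]
  exact hγ x y

end Q8.WP
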