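import Pool.Agent.Q8.WP.Tree

namespace Q8.WP

lemma stabOrbit_conj {g : T ≃g T} (hg : g ∈ Gam) (x y : V) :
    stabOrbit T Gam (g x) (g y) = g '' stabOrbit T Gam x y := by
  ext z
  constructor
  · rintro ⟨γ, hγ, h1, rfl⟩
    refine ⟨g⁻¹ (γ (g y)), ⟨g⁻¹ * γ * g, Gam.mul_mem (Gam.mul_mem (Gam.inv_mem hg) hγ) hg, ?_, rfl⟩, ?_⟩
    · show g⁻¹ (γ (g x)) = x
      rw [h1, RelIso.inv_apply_self]
    · exact RelIso.apply_inv_self g _
  · rintro ⟨w, ⟨γ, hγ, h1, rfl⟩, rfl⟩
    refine ⟨g * γ * g⁻¹, Gam.mul_mem (Gam.mul_mem hg hγ) (Gam.inv_mem hg), ?_, ?_⟩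
    · show g (γ (g⁻¹ (g x))) = g x
      rw [RelIso.inv_apply_self, h1]
    · show g (γ (g⁻¹ (g y))) = g (γ y)
      rw [RelIso.inv_apply_self]

lemma ncard_conj {g : T ≃g T} (hg : g ∈ Gam) (x y : V) :
    (stabOrbit T Gam (g x) (g y)).ncard = (stabOrbit T Gam x y).ncard := by
  rw [stabOrbit_conj hg]
  exact Set.ncard_image_of_injective _ g.injective

/-- parents of the root -/
def pv (a : Fin 2) : V := ⟨[Sum.inl a], List.isChain_singleton _⟩
/-- children of the root -/
def cv (b : Fin 50) : V := ⟨[Sum.inr b], List.isChain_singleton _⟩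

lemma pv_inj : Function.Injective pv := by
  intro a b h
  have := congrArg Subtype.val h
  simpa [pv] using this

lemma cv_inj : Function.Injective cv := by
  intro a b h
  have := congrArg Subtype.val h
  simpa [cv] using this

lemma par_o {z : V} : Par o z ↔ ∃ a, z = pv a := by
  constructor
  · rintro (⟨a, h⟩ | ⟨b, h⟩)
    · exact ⟨a, Subtype.ext (by simpa [o, pv] using h)⟩
    · have := congrArg List.length h
      simp [o] at this
  · rintro ⟨a, rfl⟩
    exact Or.inl ⟨a, by simp [o, pv]⟩

lemma child_o {z : V} : Par z o ↔ ∃ b, z = cv b := by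
  constructor
  · rintro (⟨a, h⟩ | ⟨b, h⟩)
    · have := congrArg List.length h
      simp [o] at this
    · exact ⟨b, Subtype.ext (by simpa [o, cv] using h)⟩
  · rintro ⟨b, rfl⟩
    exact Or.inr ⟨b, by simp [o, cv]⟩

lemma rtA_o (p q) : rtA p q o = o := rfl

lemma rtA_pv (p q) (a : Fin 2) : rtA p q (pv a) = pv (p a) := rfl

lemma rtA_cv (p q) (b : Fin 50) : rtA p q (cv b) = cv (q b) := rfl

lemma stabOrbit_pv (a : Fin 2) : (stabOrbit T Gam o (pv a)).ncard = 2 := by
  have : stabOrbit T Gam o (pv a) = Set.range pv := by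
    ext z
    constructor
    · rintro ⟨γ, hγ, h1, rfl⟩
      have h2 : Par o (γ (pv a)) := by
        have := (hγ o (pv a)).mp (par_o.mpr ⟨a, rfl⟩)
        rwa [h1] at this
      obtain ⟨a', h3⟩ := par_o.mp h2
      exact ⟨a', h3.symm⟩
    · rintro ⟨a', rfl⟩
      refine ⟨rtA (Equiv.swap a a') 1, rtA_mem _ _, rtA_o _ _, ?_⟩
      rw [rtA_pv, Equiv.swap_apply_left]
  rw [this, ← Set.image_univ, Set.ncard_image_of_injective _ pv_inj, Set.ncard_univ]
  simp

lemma stabOrbit_cv (b : Fin 50) : (stabOrbit T Gam o (cv b)).ncard = 50 := by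
  have : stabOrbit T Gam o (cv b) = Set.range cv := by
    ext z
    constructor
    · rintro ⟨γ, hγ, h1, rfl⟩
      have h2 : Par (γ (cv b)) o := by
        have := (hγ (cv b) o).mp (child_o.mpr ⟨b, rfl⟩)
        rwa [h1] at this
      obtain ⟨b', h3⟩ := child_o.mp h2
      exact ⟨b', h3.symm⟩
    · rintro ⟨b', rfl⟩
      refine ⟨rtA 1 (Equiv.swap b b'), rtA_mem _ _, rtA_o _ _, ?_⟩
      rw [rtA_cv, Equiv.swap_apply_left]
  rw [this, ← Set.image_univ, Set.ncard_image_of_injective _ cv_inj, Set.ncard_univ]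
  simp

lemma ncard_parent {x y : V} (h : Par x y) : (stabOrbit T Gam x y).ncard = 2 := by
  obtain ⟨g, hg, h1⟩ := transitive_Gam x o
  have h2 : Par o (g y) := by
    rw [← h1]
    exact (hg x y).mp h
  obtain ⟨a, h3⟩ := par_o.mp h2
  rw [← ncard_conj hg, h1, h3, stabOrbit_pv]

lemma ncard_child {x y : V} (h : Par x y) : (stabOrbit T Gam y x).ncard = 50 := by
  obtain ⟨g, hg, h1⟩ := transitive_Gam y o
  have h2 : Par (g x) o := by
    rw [← h1]
    exact (hg x y).mp h
  obtain ⟨b, h3⟩ := child_o.mp h2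
  rw [← ncard_conj hg, h1, h3, stabOrbit_cv]

lemma comm_of_par {x y : V} (h : Par x y) : (st Gam x).Commensurable (st Gam y) := by
  constructor
  · rw [← ncard_stabOrbit, ncard_child h]; norm_num
  · rw [← ncard_stabOrbit, ncard_parent h]; norm_num

/-- weight factor of a letter -/
noncomputable def rr : Letter → ℝ := Sum.elim (fun _ => 25) (fun _ => 1 / 25)

/-- explicit weight of a word -/
noncomputable def WL (x : List Letter) : ℝ := (x.map rr).prod

lemma WL_append (x y : List Letter) : WL (x ++ y) = WL x * WL y := by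
  unfold WL
  rw [List.map_append, List.prod_append]

lemma rr_pos (l : Letter) : 0 < rr l := by
  rcases l with a | b <;> simp [rr]

lemma WL_pos (x : List Letter) : 0 < WL x := by
  unfold WL
  induction x with
  | nil => simp
  | cons l t ih => simp only [List.map_cons, List.prod_cons]; exact mul_pos (rr_pos l) ih

lemma chain_of_append {x y : List Letter} (h : (x ++ y).IsChain R) : x.IsChain R :=
  (List.isChain_append.mp h).1

lemma weight_and_comm (x : List Letter) : ∀ (hx : x.IsChain R),
    (st Gam o).Commensurable (st Gam ⟨x, hx⟩) ∧ weight T Gam o ⟨x, hx⟩ = WL x := by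
  induction x using List.reverseRecOn with
  | nil =>
    intro hx
    refine ⟨Subgroup.Commensurable.refl _, ?_⟩
    show weight T Gam o o = _
    have h : ((stabOrbit T Gam o o).ncard : ℝ) ≠ 0 := by
      have : stabOrbit T Gam o o = {o} := by
        ext z
        constructor
        · rintro ⟨γ, -, h1, h2⟩
          exact h2.symm.trans h1
        · rintro rfl
          exact ⟨1, Gam.one_mem, rfl, rfl⟩
      rw [this]
      simp
    unfold weight WL
    rw [div_self h]
    simp
  | append_singleton x l ih =>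
    intro hx
    obtain ⟨hc, hw⟩ := ih (chain_of_append hx)
    set x' : V := ⟨x, chain_of_append hx⟩ with hx'
    set y : V := ⟨x ++ [l], hx⟩ with hy
    rcases l with a | b
    · have hp : Par x' y := Or.inl ⟨a, rfl⟩
      have hxy := comm_of_par hp
      refine ⟨hc.trans hxy, ?_⟩
      rw [weight_mul Gam o x' y hc hxy, hw, WL_append, ncard_parent hp, ncard_child hp]
      simp [WL, rr]
      norm_num
    · have hp : Par y x' := Or.inr ⟨b, rfl⟩
      have hxy := (comm_of_par hp).symm
      refine ⟨hc.trans hxy, ?_⟩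
      rw [weight_mul Gam o x' y hc hxy, hw, WL_append, ncard_parent hp, ncard_child hp]
      simp [WL, rr]
      norm_num

lemma weight_eq (x : V) : weight T Gam o x = WL x.1 := (weight_and_comm x.1 x.2).2

end Q8.WP
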